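import Pool.Agent.Results.MP_028c7c_co.HexagonNumbers
import Pool.Agent.Helper79.HI.All

/-!
# No triangles and quadrangles: six hexagons are enough (MP_028c7c_co)

The definitions (`Admissible`, `S`, triangulated spheres) are those of `HexagonNumbers.lean`.
-/

namespace Pool.Agent.Results.MP_028c7c_co.SixHexagons

open Pool.Agent.Helper79.HX Pool.Agent.Helper79.HG Pool.Agent.Helper79.HI Finset
open Pool.Agent.Results.MP_028c7c_co.HexagonNumbers

theorem mem_of_good {q : ℕ →₀ ℕ} (hq : Admissible q) (h3 : q 3 = 0) (h4 : q 4 = 0) {n : ℕ}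
    (h : Good (large q) n) : n ∈ S q := by
  obtain ⟨p, hp⟩ := h
  refine fin_mem hq (p := p) (hp.congr ?_)
  intro j
  rw [h3, h4]
  simp only [Multiset.replicate_zero, Multiset.count_add, Multiset.count_zero]
  omega

/-- The sequence is determined by its large faces. -/
theorem eq_of_large {q : ℕ →₀ ℕ} (hq : Admissible q) (h3 : q 3 = 0) (h4 : q 4 = 0) {K : ℕ}
    (h : large q = {K}) : q = Finsupp.single 5 (K + 6) + Finsupp.single K 1 := by
  have h5 : q 5 = K + 6 := by
    have e2 := hq.2.2.2.2
    rw [sum_map_eq, toMultiset_eq hq, h, h3, h4] at e2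
    simp only [Multiset.replicate_zero, Multiset.map_add, Multiset.map_zero,
      Multiset.map_replicate, Multiset.map_singleton, Multiset.sum_add, Multiset.sum_zero,
      Multiset.sum_replicate, Multiset.sum_singleton, nsmul_eq_mul] at e2
    push_cast at e2
    omega
  have e3 : Finsupp.toMultiset q =
      Finsupp.toMultiset (Finsupp.single 5 (K + 6) + Finsupp.single K 1) := by
    rw [toMultiset_eq hq, h, h3, h4, h5, map_add, Finsupp.toMultiset_single,
      Finsupp.toMultiset_single, Multiset.nsmul_singleton, Multiset.nsmul_singleton]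
    simp
  ext k
  rw [← Finsupp.count_toMultiset, ← Finsupp.count_toMultiset, e3]

/-- **Theorem.** Let `q` be admissible without triangles and quadrangles.  Then every `n ≥ 6`
belongs to `S(q)`, unless `q` is `16` pentagons and one `10`-gon (then every `n ≥ 7` does) or `17`
pentagons and one `11`-gon (then every `n ≥ 8` does). -/
theorem result (q : ℕ →₀ ℕ) (hq : Admissible q) (h3 : q 3 = 0) (h4 : q 4 = 0) (n : ℕ)
    (hn : 6 ≤ n) (h10 : q = Finsupp.single 5 16 + Finsupp.single 10 1 → 7 ≤ n)
    (h11 : q = Finsupp.single 5 17 + Finsupp.single 11 1 → 8 ≤ n) : n ∈ S q := by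
  apply mem_of_good hq h3 h4
  by_cases hA : large q = {10}
  · rw [hA]
    exact ten (h10 (eq_of_large hq h3 h4 hA))
  · by_cases hB : large q = {11}
    · rw [hB]
      exact eleven (h11 (eq_of_large hq h3 h4 hB))
    · exact six (fun a ha => (Multiset.mem_filter.1 ha).2) hA hB hn

end Pool.Agent.Results.MP_028c7c_co.SixHexagons
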